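import Pool.Agent.J4H61.VanPf

/-!
# The Singer conjecture and the reflection group trick in even dimensions

Let `N` be a compact aspherical manifold of dimension `2 d` with boundary, `π` its fundamental group, and let the
boundary of the universal cover of `N` be triangulated by a flag complex with the `1`-skeleton `G`, invariantly under
`π`. Davis' reflection group trick gives a contractible manifold of dimension `2 d` on which the semidirect product
`W G ⋊ π` of the right-angled Coxeter group of `G` with `π` acts properly and cocompactly; its torsion-free subgroups
`Γ` of finite index are the fundamental groups of closed aspherical manifolds of dimension `2 d`.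

We compare the `L²`-Betti numbers of `Γ` and of `π`. The vertices are ordered by a height function which is invariant
under `π` and takes different values at adjacent vertices. The only condition is that every descending link (the full
subcomplex of the link of `v` spanned by the vertices lower than `v`) is a full subcomplex of the order complex of a
finite poset of length less than `2 d` which is Gorenstein* over the field with two elements (`SubGor`). For the
barycentric subdivision of a regular cell structure of the boundary, with the dimension of the cells as the height,
the descending links are the order complexes of the boundaries of the cells.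
-/

set_option autoImplicit false

namespace Pool.Agent.Results.MP_f80465_gt.ReflectionTrick

open Pool.Agent.W907.SG Pool.Agent.J4H61.Dv Pool.Agent.J4H61.Vn Pool.Agent.N496.CV

/-- Let the group `π`, with a resolution `C` by finitely generated free modules, act on the graph `G` freely on the
vertices and with finitely many orbits of vertices, let `ht` be an invariant function on the vertices with different
values at adjacent vertices, and let every descending link be a full subcomplex of the order complex of a Gorenstein*
poset (over the field with two elements) of length less than `2 d`. Let `Γ` be a subgroup of finite index in the
semidirect product of the right-angled Coxeter group `W G` with `π`, and let `Γ` be a Poincare duality group of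
dimension `2 d` (of type FL, with the resolution `Q.C`). Then the reduced `ℓ²`-homology of `Γ` vanishes outside the
middle degree `d` if and only if the reduced `ℓ²`-homology of `π` vanishes above the degree `d`. -/
theorem result : ∀ (d : ℕ) (V : Type) (G : SimpleGraph V) (ht : V → ℕ) (π : Type) [Group π] [MulAction π V]
    (α : π →* MulAut (W G)), 1 ≤ d →
    (∀ u v, G.Adj u v → ht u ≠ ht v) →
    (∀ v, SubGor d (G.induce {u | G.Adj v u ∧ ht u < ht v})) →
    (∀ (g : π) (u v : V), G.Adj u v → G.Adj (g • u) (g • v)) →
    (∀ (g : π) (v : V), ht (g • v) = ht v) →
    (∀ (g : π) (v : V), g • v = v → g = 1) →
    (∃ S : Finset V, ∀ v : V, ∃ g : π, g • v ∈ S) →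
    (∀ (g : π) (v : V), α g ((cox G).simple v) = (cox G).simple (g • v)) →
    ∀ (C : V7N.FreeRes π) (Γ : Subgroup (W G ⋊[α] π)) (Q : PD Γ (2 * d)), Γ.FiniteIndex →
      ((∀ k, k ≠ d → Van Q.C k) ↔ ∀ k, d < k → Van C k) := by
  intro d V G ht π _ _ α hd hne hS hadj hht hfree hcof hα C Γ Q hf
  have h := singer_iff d hd V G ht hne hS π hadj hht hfree hcof α hα Γ hf Q C
  simp only [van_iff]
  exact h

end Pool.Agent.Results.MP_f80465_gt.ReflectionTrick
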